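import Mathlib

/-!
A linearly ordered abelian group whose order topology is totally disconnected, not separable and
of uncountable pseudocharacter, and which has no suitable set.

The group consists of all functions with countable support from `κ = 𝔠⁺` to the integers,
with the lexicographic order.
-/

set_option linter.unusedSectionVars false

namespace Pool.Agent.Results.MP_41e59e_gt.NoSuitableSet

open Cardinal Set Topology

/-- `S` is a suitable set for the topological group `G`: it is discrete as a subspace,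
`S ∪ {e}` is closed in `G`, and the subgroup generated by `S` is dense in `G`. -/
def IsSuitable {G : Type} [Group G] [TopologicalSpace G] (S : Set G) : Prop :=
  DiscreteTopology S ∧ IsClosed (S ∪ {1}) ∧ Dense (Subgroup.closure S : Set G)

/-- The density `d(G)`: the least cardinality of a dense subset. -/
noncomputable def density (G : Type) [TopologicalSpace G] : Cardinal :=
  sInf {c | ∃ D : Set G, Dense D ∧ #D = c}

/-- The pseudocharacter `ψ(G)`: the least infinite cardinal `c` such that every point is the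
intersection of at most `c` open sets. -/
noncomputable def pseudocharacter (G : Type) [TopologicalSpace G] : Cardinal :=
  sInf {c | ℵ₀ ≤ c ∧ ∀ x : G, ∃ U : Set (Set G), #U ≤ c ∧ (∀ V ∈ U, IsOpen V) ∧ ⋂₀ U = {x}}

/-! ### The group -/

theorem mk_union_singleton_le {α : Type} (A : Set α) (b : α) (hA : #A ≤ 𝔠) :
    #(A ∪ {b} : Set α) ≤ 𝔠 := by
  have h : #A + #({b} : Set α) ≤ 𝔠 + 𝔠 := by
    apply add_le_add hA
    rw [mk_singleton]
    exact (one_lt_aleph0.trans aleph0_lt_continuum).le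
  refine (mk_union_le _ _).trans (h.trans ?_)
  rw [continuum_add_self]

section Construction

variable (I : Type) [LinearOrder I] [WellFoundedLT I]

/-- Functions with countable support, as a subgroup of the lexicographic product. -/
def Grp : Subgroup (Lex (I → Multiplicative ℤ)) where
  carrier := {f | {i | ofLex f i ≠ 1}.Countable}
  mul_mem' := by
    intro a b ha hb
    refine (ha.union hb).mono ?_
    intro i hi
    by_contra hcon
    simp only [mem_union, mem_ofPred_eq, not_or, not_not] at hcon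
    apply hi
    change ofLex a i * ofLex b i = 1
    rw [hcon.1, hcon.2, one_mul]
  one_mem' := by
    have : {i | ofLex (1 : Lex (I → Multiplicative ℤ)) i ≠ 1} = ∅ := by
      ext i
      simp only [mem_ofPred_eq, mem_empty_iff_false, iff_false, not_not]
      rfl
    simp only [mem_ofPred_eq, this, countable_empty]
  inv_mem' := by
    intro a ha
    refine ha.mono ?_
    intro i hi hcon
    apply hi
    change (ofLex a i)⁻¹ = 1
    rw [hcon, inv_one]

/-- The group, as a type. -/
def G : Type := Grp I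

noncomputable instance : CommGroup (G I) := inferInstanceAs (CommGroup (Grp I))
noncomputable instance : LinearOrder (G I) := inferInstanceAs (LinearOrder (Grp I))
instance : IsOrderedMonoid (G I) := inferInstanceAs (IsOrderedMonoid (Grp I))
noncomputable instance : TopologicalSpace (G I) := Preorder.topology (G I)
instance : OrderTopology (G I) := ⟨rfl⟩

variable {I}

/-- Coordinates. -/
def co (g : G I) (i : I) : Multiplicative ℤ := ofLex g.1 i

theorem co_mul (g h : G I) (i : I) : co (g * h) i = co g i * co h i := rfl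
theorem co_one (i : I) : co (1 : G I) i = 1 := rfl
theorem co_inv (g : G I) (i : I) : co g⁻¹ i = (co g i)⁻¹ := rfl

theorem co_ext {g h : G I} (H : ∀ i, co g i = co h i) : g = h := by
  apply Subtype.ext
  apply ofLex.injective
  funext i
  exact H i

theorem co_countable (g : G I) : {i | co g i ≠ 1}.Countable := g.2

theorem co_lt_iff {g h : G I} :
    g < h ↔ ∃ i, (∀ j < i, co g j = co h j) ∧ co g i < co h i := Iff.rfl

/-- Constructor. -/
def mk (f : I → Multiplicative ℤ) (hf : {i | f i ≠ 1}.Countable) : G I := ⟨toLex f, hf⟩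

theorem co_mk (f : I → Multiplicative ℤ) (hf : {i | f i ≠ 1}.Countable) (i : I) :
    co (mk f hf) i = f i := rfl

/-- The generator of the coordinate group. -/
def t : Multiplicative ℤ := Multiplicative.ofAdd 1

theorem one_lt_t : (1 : Multiplicative ℤ) < t := by
  change (0 : ℤ) < 1
  norm_num

theorem t_ne_one : t ≠ 1 := one_lt_t.ne'

open Classical in
/-- Indicator of a countable set. -/
noncomputable def ind (A : Set I) (hA : A.Countable) : G I :=
  mk (fun i => if i ∈ A then t else 1) (hA.mono (by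
    intro i hi
    by_contra h
    exact hi (if_neg h)))

theorem co_ind_mem {A : Set I} (hA : A.Countable) {i : I} (hi : i ∈ A) : co (ind A hA) i = t :=
  if_pos hi

theorem co_ind_not_mem {A : Set I} (hA : A.Countable) {i : I} (hi : i ∉ A) :
    co (ind A hA) i = 1 := if_neg hi

/-- The basic open set: all elements agreeing with `x` below `i`. -/
def cyl (x : G I) (i : I) : Set (G I) := {y | ∀ j < i, co y j = co x j}

theorem self_mem_cyl (x : G I) (i : I) : x ∈ cyl x i := fun _ _ => rfl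

theorem cyl_anti (x : G I) {i j : I} (h : i ≤ j) : cyl x j ⊆ cyl x i :=
  fun _ hy k hk => hy k (hk.trans_le h)

/-- first difference -/
theorem exists_first_diff {x y : G I} {i : I} (h : y ∉ cyl x i) :
    ∃ k < i, co y k ≠ co x k ∧ ∀ j < k, co y j = co x j := by
  have hne : {k | k < i ∧ co y k ≠ co x k}.Nonempty := by
    by_contra hcon
    apply h
    intro j hj
    by_contra hj'
    exact hcon ⟨j, hj, hj'⟩
  obtain ⟨k, ⟨hk1, hk2⟩, hk3⟩ := wellFounded_lt.has_min _ hne
  refine ⟨k, hk1, hk2, ?_⟩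
  intro j hj
  by_contra hj'
  exact hk3 j ⟨hj.trans hk1, hj'⟩ hj

theorem Ioo_subset_cyl (x : G I) (i : I) :
    Ioo (x * (ind {i} (countable_singleton i))⁻¹) (x * ind {i} (countable_singleton i))
      ⊆ cyl x i := by
  intro y hy
  by_contra hcon
  obtain ⟨k, hki, hk, hk'⟩ := exists_first_diff hcon
  have hc : ∀ j ≤ k, co (ind {i} (countable_singleton i)) j = 1 := by
    intro j hj
    apply co_ind_not_mem
    simp only [mem_singleton_iff]
    exact (hj.trans_lt hki).ne
  rcases lt_or_gt_of_ne hk with h | h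
  · have : y < x * (ind {i} (countable_singleton i))⁻¹ := by
      rw [co_lt_iff]
      refine ⟨k, ?_, ?_⟩
      · intro j hj
        rw [co_mul, co_inv, hc j hj.le, inv_one, mul_one]
        exact hk' j hj
      · rw [co_mul, co_inv, hc k le_rfl, inv_one, mul_one]
        exact h
    exact lt_asymm this hy.1
  · have : x * (ind {i} (countable_singleton i)) < y := by
      rw [co_lt_iff]
      refine ⟨k, ?_, ?_⟩
      · intro j hj
        rw [co_mul, hc j hj.le, mul_one]
        exact (hk' j hj).symm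
      · rw [co_mul, hc k le_rfl, mul_one]
        exact h
    exact lt_asymm this hy.2

theorem one_lt_ind (i : I) : (1 : G I) < ind {i} (countable_singleton i) := by
  rw [co_lt_iff]
  refine ⟨i, ?_, ?_⟩
  · intro j hj
    rw [co_ind_not_mem, co_one]
    simp only [mem_singleton_iff]
    exact hj.ne
  · rw [co_ind_mem _ (mem_singleton i), co_one]
    exact one_lt_t

theorem cyl_mem_nhds (x : G I) (i : I) : cyl x i ∈ 𝓝 x := by
  refine Filter.mem_of_superset (Ioo_mem_nhds ?_ ?_) (Ioo_subset_cyl x i)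
  · exact mul_lt_of_lt_one_right' x (inv_lt_one'.2 (one_lt_ind i))
  · exact lt_mul_of_one_lt_right' x (one_lt_ind i)

theorem isOpen_cyl (x : G I) (i : I) : IsOpen (cyl x i) := by
  rw [isOpen_iff_mem_nhds]
  intro y hy
  refine Filter.mem_of_superset (cyl_mem_nhds y i) ?_
  intro z hz j hj
  rw [hz j hj, hy j hj]

theorem isClosed_cyl (x : G I) (i : I) : IsClosed (cyl x i) := by
  rw [← isOpen_compl_iff, isOpen_iff_mem_nhds]
  intro y hy
  refine Filter.mem_of_superset (cyl_mem_nhds y i) ?_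
  intro z hz hz'
  apply hy
  intro j hj
  rw [← hz j hj, hz' j hj]

theorem exists_cyl_subset_Ioi {a x : G I} (h : a < x) : ∃ i, ∀ k, i < k → cyl x k ⊆ Ioi a := by
  obtain ⟨i, hi, hi'⟩ := co_lt_iff.1 h
  refine ⟨i, fun k hk y hy => ?_⟩
  rw [mem_Ioi, co_lt_iff]
  refine ⟨i, ?_, ?_⟩
  · intro j hj
    rw [hi j hj, hy j (hj.trans hk)]
  · rw [hy i hk]
    exact hi'

theorem exists_cyl_subset_Iio {b x : G I} (h : x < b) : ∃ i, ∀ k, i < k → cyl x k ⊆ Iio b := by
  obtain ⟨i, hi, hi'⟩ := co_lt_iff.1 h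
  refine ⟨i, fun k hk y hy => ?_⟩
  rw [mem_Iio, co_lt_iff]
  refine ⟨i, ?_, ?_⟩
  · intro j hj
    rw [← hi j hj, hy j (hj.trans hk)]
  · rw [hy i hk]
    exact hi'

theorem mem_nhds_iff' [Nonempty I] [NoMaxOrder I] (x : G I) (U : Set (G I)) :
    U ∈ 𝓝 x ↔ ∃ i, cyl x i ⊆ U := by
  constructor
  · intro hU
    obtain ⟨i0⟩ := ‹Nonempty I›
    have hlt : x * (ind {i0} (countable_singleton i0))⁻¹ < x :=
      mul_lt_of_lt_one_right' x (inv_lt_one'.2 (one_lt_ind i0))
    have hgt : x < x * (ind {i0} (countable_singleton i0)) :=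
      lt_mul_of_one_lt_right' x (one_lt_ind i0)
    obtain ⟨a, b, hab, hsub⟩ := (mem_nhds_iff_exists_Ioo_subset' ⟨_, hlt⟩ ⟨_, hgt⟩).1 hU
    obtain ⟨i, hi⟩ := exists_cyl_subset_Ioi hab.1
    obtain ⟨j, hj⟩ := exists_cyl_subset_Iio hab.2
    obtain ⟨k, hk⟩ := exists_gt (max i j)
    refine ⟨k, fun y hy => hsub ⟨?_, ?_⟩⟩
    · exact hi k ((le_max_left _ _).trans_lt hk) hy
    · exact hj k ((le_max_right _ _).trans_lt hk) hy
  · rintro ⟨i, hi⟩
    exact Filter.mem_of_superset (cyl_mem_nhds x i) hi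

theorem totallyDisconnected [NoMaxOrder I] : TotallyDisconnectedSpace (G I) := by
  have : TotallySeparatedSpace (G I) := by
    rw [totallySeparatedSpace_iff_exists_isClopen]
    intro x y hxy
    have : ∃ i, co x i ≠ co y i := by
      by_contra hcon
      push Not at hcon
      exact hxy (co_ext hcon)
    obtain ⟨i, hi⟩ := this
    obtain ⟨k, hk⟩ := exists_gt i
    refine ⟨cyl x k, ⟨isClosed_cyl x k, isOpen_cyl x k⟩, self_mem_cyl x k, ?_⟩
    intro hy
    exact hi (hy i hk).symm
  infer_instance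

/-- Elements supported below `b`. -/
def Gb (b : I) : Set (G I) := {g | ∀ j, b ≤ j → co g j = 1}

theorem Gb_mono {b c : I} (h : b ≤ c) : Gb b ⊆ Gb c := fun _ hg j hj => hg j (h.trans hj)

theorem mk_Gb_le (h1 : ∀ i : I, #(Iio i) ≤ 𝔠) (b : I) : #(Gb b) ≤ 𝔠 := by
  have hinj : #(Gb b) ≤ #{s : Set (I × Multiplicative ℤ) //
      s ⊆ (Iio b ×ˢ (univ : Set (Multiplicative ℤ))) ∧ #s ≤ ℵ₀} := by
    refine mk_le_of_injective (f := fun g => ⟨{p | co g.1 p.1 = p.2 ∧ p.2 ≠ 1}, ?_, ?_⟩) ?_
    · rintro ⟨j, v⟩ ⟨hj, hv⟩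
      refine ⟨?_, mem_univ _⟩
      by_contra hb
      simp only [mem_Iio, not_lt] at hb
      exact hv (hj ▸ g.2 j hb)
    · rw [le_aleph0_iff_set_countable]
      have hinj : InjOn Prod.fst {p : I × Multiplicative ℤ | co g.1 p.1 = p.2 ∧ p.2 ≠ 1} := by
        rintro ⟨j, v⟩ ⟨hj, hv⟩ ⟨k, w⟩ ⟨hk, hw⟩ hjk
        simp only at hj hk hjk
        subst hjk
        rw [← hj, ← hk]
      refine MapsTo.countable_of_injOn (t := {i | co g.1 i ≠ 1}) ?_ hinj (co_countable g.1)
      rintro ⟨j, v⟩ ⟨hj, hv⟩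
      simp only at hj
      simp only [mem_ofPred_eq]
      rw [hj]
      exact hv
    · intro g h hgh
      simp only [Subtype.mk.injEq] at hgh
      apply Subtype.ext
      apply co_ext
      intro i
      by_contra hne
      by_cases hg : co g.1 i = 1
      · have hh : co h.1 i ≠ 1 := fun hh => hne (hg.trans hh.symm)
        have : (i, co h.1 i) ∈ {p : I × Multiplicative ℤ | co g.1 p.1 = p.2 ∧ p.2 ≠ 1} := by
          rw [hgh]
          exact ⟨rfl, hh⟩
        exact hne this.1
      · have : (i, co g.1 i) ∈ {p : I × Multiplicative ℤ | co h.1 p.1 = p.2 ∧ p.2 ≠ 1} := by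
          rw [← hgh]
          exact ⟨rfl, hg⟩
        exact hne this.1.symm
  refine hinj.trans ((mk_bounded_subset_le _ _).trans ?_)
  have : max #(Iio b ×ˢ (univ : Set (Multiplicative ℤ)) : Set (I × Multiplicative ℤ)) ℵ₀ ≤ 𝔠 := by
    refine max_le ?_ aleph0_le_continuum
    rw [mk_setProd]
    simp only [mk_univ]
    refine (mul_le_mul' (h1 b) (mk_le_aleph0 (α := Multiplicative ℤ))).trans ?_
    exact (mul_le_mul' le_rfl aleph0_le_continuum).trans (by simp)
  exact (power_le_power_right this).trans (by simp)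

/-- The closing off argument of length `ω₁`. -/
theorem exists_closure_point [Nonempty I] (h1 : ∀ i : I, #(Iio i) ≤ 𝔠)
    (h2 : ∀ X : Set I, #X ≤ 𝔠 → ∃ b, ∀ x ∈ X, x < b) (φ : G I → I) :
    ∃ c : I, (∀ b < c, ∀ g ∈ Gb b, φ g ≤ c) ∧
      ∀ X : Set I, X.Countable → (∀ x ∈ X, x < c) → ∃ b < c, ∀ x ∈ X, x < b := by
  classical
  have hJ : ∀ X : Set (ℵ₁ : Cardinal.{0}).ord.ToType, X.Countable → ∃ b, ∀ x ∈ X, x < b := by
    intro X hX
    rw [← not_isCofinal_iff]
    intro hc
    have h := Order.cof_le hc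
    rw [Ordinal.cof_toType, isRegular_aleph_one.cof_ord] at h
    have h' : #X ≤ ℵ₀ := le_aleph0_iff_set_countable.2 hX
    exact absurd (h.trans h') (not_le.2 aleph0_lt_aleph_one)
  choose! B hB using h2
  set ψ : I → I := fun b => B ((φ '' Gb b) ∪ {b}) with hψ
  have hψ1 : ∀ b, ∀ g ∈ Gb b, φ g < ψ b := by
    intro b g hg
    exact hB _ (mk_union_singleton_le _ _ (mk_image_le.trans (mk_Gb_le h1 b))) _
      (Or.inl ⟨g, hg, rfl⟩)
  have hψ2 : ∀ b, b < ψ b := by
    intro b
    exact hB _ (mk_union_singleton_le _ _ (mk_image_le.trans (mk_Gb_le h1 b))) _ (Or.inr rfl)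
  set J := (ℵ₁ : Cardinal.{0}).ord.ToType with hJdef
  have hJc : #J ≤ 𝔠 := by
    rw [hJdef, mk_ord_toType]
    exact aleph_one_le_continuum
  let h : J → I := WellFounded.fix (C := fun _ => I) (wellFounded_lt (α := J))
    (fun α ih => B (range fun b : Iio α => ψ (ih b.1 b.2)))
  have hh : ∀ α, h α = B (range fun b : Iio α => ψ (h b.1)) := by
    intro α
    exact WellFounded.fix_eq _ _ _
  have hlt : ∀ b α, b < α → ψ (h b) < h α := by
    intro b α hb
    rw [hh α]
    apply hB
    · exact mk_range_le.trans ((mk_set_le _).trans hJc)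
    · exact ⟨⟨b, hb⟩, rfl⟩
  have hmono : StrictMono h := fun b α hb => (hψ2 _).trans (hlt b α hb)
  have hne : {b : I | ∀ α, h α < b}.Nonempty := by
    refine ⟨B (range h), fun α => hB _ (mk_range_le.trans hJc) _ ⟨α, rfl⟩⟩
  obtain ⟨c, hc, hcmin⟩ := wellFounded_lt.has_min _ hne
  have hcof : ∀ b < c, ∃ α, b ≤ h α := by
    intro b hb
    by_contra hcon
    push Not at hcon
    exact hcmin b hcon hb
  refine ⟨c, ?_, ?_⟩
  · intro b hb g hg
    obtain ⟨α, hα⟩ := hcof b hb
    have h3 := hψ1 (h α) g (Gb_mono hα hg)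
    obtain ⟨β, hβ⟩ := hJ {α} (countable_singleton α)
    exact (h3.trans ((hlt α β (hβ α rfl)).trans (hc β))).le
  · intro X hX hXc
    have : ∀ x : X, ∃ α, x.1 ≤ h α := fun x => hcof x.1 (hXc x.1 x.2)
    choose α hα using this
    have : Countable X := hX.to_subtype
    obtain ⟨β, hβ⟩ := hJ (range α) (countable_range α)
    refine ⟨h β, hc β, fun x hx => ?_⟩
    exact (hα ⟨x, hx⟩).trans_lt (hmono (hβ _ ⟨⟨x, hx⟩, rfl⟩))

/-- Closed discrete sets have size at most continuum. -/
theorem mk_le_of_closed_discrete [Nonempty I] (h1 : ∀ i : I, #(Iio i) ≤ 𝔠)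
    (h2 : ∀ X : Set I, #X ≤ 𝔠 → ∃ b, ∀ x ∈ X, x < b) (D : Set (G I))
    (hD : ∀ g : G I, ∃ i, cyl g i ∩ D ⊆ {g}) : #D ≤ 𝔠 := by
  classical
  choose φ hφ using hD
  obtain ⟨c, hc1, hc2⟩ := exists_closure_point h1 h2 φ
  refine (mk_le_mk_of_subset ?_).trans (mk_Gb_le h1 c)
  intro d hd
  obtain ⟨b, hbc, hb⟩ := hc2 {j | co d j ≠ 1 ∧ j < c}
    ((co_countable d).mono fun j hj => hj.1) (fun x hx => hx.2)
  have hcount : {j | (fun j => if j < b then co d j else 1) j ≠ 1}.Countable := by
    refine (co_countable d).mono ?_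
    intro j hj hj'
    apply hj
    simp only [hj', ite_self]
  set a : G I := mk (fun j => if j < b then co d j else 1) hcount with ha
  have hab : a ∈ Gb b := by
    intro j hj
    rw [ha, co_mk, if_neg (not_lt.2 hj)]
  have hφa : φ a ≤ c := hc1 b hbc a hab
  have hd' : d ∈ cyl a (φ a) := by
    intro j hj
    by_cases hjb : j < b
    · rw [ha, co_mk, if_pos hjb]
    · rw [ha, co_mk, if_neg hjb]
      by_contra hne
      exact hjb (hb j ⟨hne, hj.trans_le hφa⟩)
  have : d = a := hφ a ⟨hd', hd⟩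
  rw [this]
  exact Gb_mono hbc.le hab

/-- Bounded supports. -/
theorem exists_mem_Gb (h2 : ∀ X : Set I, #X ≤ 𝔠 → ∃ b, ∀ x ∈ X, x < b) (g : G I) :
    ∃ b, g ∈ Gb b := by
  obtain ⟨b, hb⟩ := h2 {i | co g i ≠ 1}
    ((le_aleph0_iff_set_countable.2 (co_countable g)).trans aleph0_le_continuum)
  refine ⟨b, fun j hj => ?_⟩
  by_contra hne
  exact absurd (hb j hne) (not_lt.2 hj)

/-- A set of at most continuum many elements has a common bound for the supports, above any
given index. -/
theorem exists_subset_Gb (h2 : ∀ X : Set I, #X ≤ 𝔠 → ∃ b, ∀ x ∈ X, x < b) (D : Set (G I))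
    (hD : #D ≤ 𝔠) (i : I) : ∃ b, i < b ∧ D ⊆ Gb b := by
  choose β hβ using fun g : G I => exists_mem_Gb h2 g
  obtain ⟨b, hb⟩ := h2 ((β '' D) ∪ {i}) (mk_union_singleton_le _ _ (mk_image_le.trans hD))
  refine ⟨b, hb i (Or.inr rfl), fun g hg => ?_⟩
  exact Gb_mono (hb _ (Or.inl ⟨g, hg, rfl⟩)).le (hβ g)

/-- Elements which are trivial on a final segment of `Iio c`, where `c` is the supremum of the
sequence `s`. -/
def L (s : ℕ → I) (hs : Monotone s) (c : I) : Subgroup (G I) where
  carrier := {y | ∃ n, ∀ j, s n ≤ j → j < c → co y j = 1}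
  mul_mem' := by
    rintro a b ⟨n, hn⟩ ⟨m, hm⟩
    refine ⟨max n m, fun j hj hjc => ?_⟩
    rw [co_mul, hn j ((hs (le_max_left _ _)).trans hj) hjc,
      hm j ((hs (le_max_right _ _)).trans hj) hjc, one_mul]
  one_mem' := ⟨0, fun j _ _ => co_one j⟩
  inv_mem' := by
    rintro a ⟨n, hn⟩
    refine ⟨n, fun j hj hjc => ?_⟩
    rw [co_inv, hn j hj hjc, inv_one]

theorem not_suitable [NoMaxOrder I] [Nonempty I] (h1 : ∀ i : I, #(Iio i) ≤ 𝔠)
    (h2 : ∀ X : Set I, #X ≤ 𝔠 → ∃ b, ∀ x ∈ X, x < b) (S : Set (G I)) : ¬ IsSuitable S := by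
  rintro ⟨hdisc, hclosed, hdense⟩
  have hD : ∀ i, #(S \ cyl 1 i : Set (G I)) ≤ 𝔠 := by
    intro i
    apply mk_le_of_closed_discrete h1 h2
    intro g
    by_cases hg : g ∈ cyl 1 i
    · refine ⟨i, ?_⟩
      rintro y ⟨hy, hyS, hy1⟩
      exfalso
      apply hy1
      intro j hj
      rw [hy j hj, hg j hj]
    · by_cases hgS : g ∈ S
      · obtain ⟨U, hU, hUS⟩ := isDiscrete_iff_forall_mem_exists_isOpen.1
          (isDiscrete_iff_discreteTopology.2 hdisc) g hgS
        have hgU : U ∈ 𝓝 g := hU.mem_nhds (by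
          have : g ∈ U ∩ S := by rw [hUS]; rfl
          exact this.1)
        obtain ⟨k, hk⟩ := (mem_nhds_iff' g U).1 hgU
        refine ⟨k, ?_⟩
        rintro y ⟨hy, hyS, hy1⟩
        rw [← hUS]
        exact ⟨hk hy, hyS⟩
      · have hg1 : g ∉ S ∪ {1} := by
          rintro (h | h)
          · exact hgS h
          · rw [mem_singleton_iff] at h
            exact hg (h ▸ self_mem_cyl 1 i)
        obtain ⟨k, hk⟩ := (mem_nhds_iff' g _).1 (hclosed.isOpen_compl.mem_nhds hg1)
        refine ⟨k, ?_⟩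
        rintro y ⟨hy, hyS, hy1⟩
        exact absurd (Or.inl hyS) (hk hy)
  choose f hf1 hf2 using fun i => exists_subset_Gb h2 _ (hD i) i
  obtain ⟨i0⟩ := ‹Nonempty I›
  let s : ℕ → I := fun n => Nat.rec i0 (fun _ b => f b) n
  have hs1 : ∀ n, s (n + 1) = f (s n) := fun n => rfl
  have hsm : StrictMono s := strictMono_nat_of_lt_succ (fun n => hf1 (s n))
  have hne : {b : I | ∀ n, s n < b}.Nonempty := by
    obtain ⟨b, hb⟩ := h2 (range s)
      ((le_aleph0_iff_set_countable.2 (countable_range s)).trans aleph0_le_continuum)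
    exact ⟨b, fun n => hb _ ⟨n, rfl⟩⟩
  obtain ⟨c, hc, hcmin⟩ := wellFounded_lt.has_min _ hne
  have hcof : ∀ b < c, ∃ n, b ≤ s n := by
    intro b hb
    by_contra hcon
    push Not at hcon
    exact hcmin b hcon hb
  set x : G I := ind (range s) (countable_range s) with hx
  obtain ⟨y, hyc, hyS⟩ := hdense.inter_open_nonempty (cyl x c) (isOpen_cyl x c)
    ⟨x, self_mem_cyl x c⟩
  have hSL : Subgroup.closure S ≤ L s hsm.monotone c := by
    rw [Subgroup.closure_le]
    intro g hg
    by_cases hgc : g ∈ cyl 1 c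
    · exact ⟨0, fun j _ hj => hgc j hj⟩
    · obtain ⟨k, hkc, hk, -⟩ := exists_first_diff hgc
      obtain ⟨n, hn⟩ := hcof k hkc
      have hgn : g ∈ S \ cyl 1 (s (n + 1)) := by
        refine ⟨hg, fun hgn => hk ?_⟩
        exact hgn k (hn.trans_lt (hsm (Nat.lt_succ_self n)))
      refine ⟨n + 2, fun j hj _ => ?_⟩
      exact hf2 (s (n + 1)) hgn j hj
  obtain ⟨n, hn⟩ := hSL hyS
  have h3 := hn (s n) le_rfl (hc n)
  rw [hyc (s n) (hc n), hx, co_ind_mem _ (mem_range_self n)] at h3
  exact t_ne_one h3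

theorem aleph0_lt_density [NoMaxOrder I] [Nonempty I]
    (h2 : ∀ X : Set I, #X ≤ 𝔠 → ∃ b, ∀ x ∈ X, x < b) : ℵ₀ < density (G I) := by
  have hne : {c | ∃ D : Set (G I), Dense D ∧ #D = c}.Nonempty := ⟨_, univ, dense_univ, rfl⟩
  obtain ⟨D, hD, hDc⟩ := csInf_mem hne
  change ℵ₀ < sInf {c | ∃ D : Set (G I), Dense D ∧ #D = c}
  rw [← hDc]
  by_contra hcon
  obtain ⟨i0⟩ := ‹Nonempty I›
  obtain ⟨b, -, hb⟩ := exists_subset_Gb h2 D ((not_lt.1 hcon).trans aleph0_le_continuum) i0
  obtain ⟨c, hc⟩ := exists_gt b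
  obtain ⟨y, hy1, hy2⟩ := hD.inter_open_nonempty (cyl (ind {b} (countable_singleton b)) c)
    (isOpen_cyl _ c) ⟨_, self_mem_cyl _ c⟩
  have h3 := hy1 b hc
  rw [co_ind_mem _ (mem_singleton b), hb hy2 b le_rfl] at h3
  exact t_ne_one h3.symm

theorem aleph0_lt_pseudocharacter [NoMaxOrder I] [Nonempty I]
    (h2 : ∀ X : Set I, #X ≤ 𝔠 → ∃ b, ∀ x ∈ X, x < b) : ℵ₀ < pseudocharacter (G I) := by
  have hne : {c | ℵ₀ ≤ c ∧ ∀ x : G I, ∃ U : Set (Set (G I)), #U ≤ c ∧
      (∀ V ∈ U, IsOpen V) ∧ ⋂₀ U = {x}}.Nonempty := by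
    refine ⟨max ℵ₀ #(Set (G I)), le_max_left _ _, fun x => ⟨{V | IsOpen V ∧ x ∈ V}, ?_, ?_, ?_⟩⟩
    · exact (mk_set_le _).trans (le_max_right _ _)
    · exact fun V hV => hV.1
    · apply Subset.antisymm
      · intro y hy
        by_contra hne
        exact (hy {y}ᶜ ⟨isOpen_compl_singleton, fun h => hne (by
          rw [mem_singleton_iff] at h ⊢; exact h.symm)⟩) rfl
      · rintro _ rfl V hV
        exact hV.2
  obtain ⟨hc1, hc2⟩ := csInf_mem hne
  refine lt_of_le_of_ne hc1 ?_
  intro heq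
  obtain ⟨U, hUc, hUo, hU⟩ := hc2 1
  rw [← show _ = sInf _ from heq] at hUc
  have hUx : ∀ V : U, ∃ i, cyl 1 i ⊆ V.1 := by
    intro V
    rw [← mem_nhds_iff']
    refine (hUo V.1 V.2).mem_nhds ?_
    have : (1 : G I) ∈ ⋂₀ U := by rw [hU]; rfl
    exact this V.1 V.2
  choose i hi using hUx
  have hUcount : Countable U := le_aleph0_iff_set_countable.1 hUc
  obtain ⟨b, hb⟩ := h2 (range i)
    ((le_aleph0_iff_set_countable.2 (countable_range i)).trans aleph0_le_continuum)
  have hmem : ind {b} (countable_singleton b) ∈ ⋂₀ U := by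
    intro V hV
    apply hi ⟨V, hV⟩
    intro j hj
    rw [co_ind_not_mem, co_one]
    simp only [mem_singleton_iff]
    exact (hj.trans (hb _ ⟨⟨V, hV⟩, rfl⟩)).ne
  rw [hU, mem_singleton_iff] at hmem
  exact (one_lt_ind b).ne' hmem

end Construction

/-- There is a linearly ordered abelian group `G` which, with its order topology, is a totally
disconnected (Tychonoff) topological group with `d(G) > ω` and `ψ(G) > ω` and which has no
suitable set. -/
theorem result :
    ∃ (G : Type) (_ : CommGroup G) (_ : LinearOrder G) (_ : IsOrderedMonoid G)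
      (_ : TopologicalSpace G) (_ : OrderTopology G) (_ : IsTopologicalGroup G),
      T35Space G ∧ TotallyDisconnectedSpace G ∧ ℵ₀ < density G ∧ ℵ₀ < pseudocharacter G ∧
        ¬ ∃ S : Set G, IsSuitable S := by
  have hreg : (Order.succ (𝔠 : Cardinal.{0})).IsRegular := isRegular_succ aleph0_le_continuum
  set I : Type := (Order.succ (𝔠 : Cardinal.{0})).ord.ToType with hI
  have h1 : ∀ i : I, #(Iio i) ≤ 𝔠 := by
    intro i
    have hcard : #I = Order.succ 𝔠 := mk_ord_toType _
    have h := mk_Iio_lt i (by rw [hcard]; exact (Ordinal.type_toType _).symm)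
    exact Order.lt_succ_iff.1 (h.trans_eq hcard)
  have h2 : ∀ X : Set I, #X ≤ 𝔠 → ∃ b, ∀ x ∈ X, x < b := by
    intro X hX
    rw [← not_isCofinal_iff]
    intro hc
    have h := Order.cof_le hc
    rw [Ordinal.cof_toType, hreg.cof_ord] at h
    exact absurd (Order.lt_succ_iff.2 hX) (not_lt.2 h)
  have hne : Nonempty I := by
    obtain ⟨b, -⟩ := h2 ∅ (by simp)
    exact ⟨b⟩
  have hmax : NoMaxOrder I := by
    refine ⟨fun a => ?_⟩
    obtain ⟨b, hb⟩ := h2 {a} (by
      rw [mk_singleton]; exact (one_lt_aleph0.trans aleph0_lt_continuum).le)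
    exact ⟨b, hb a rfl⟩
  refine ⟨G I, inferInstance, inferInstance, inferInstance, inferInstance, inferInstance,
    inferInstance, inferInstance, totallyDisconnected, aleph0_lt_density h2,
    aleph0_lt_pseudocharacter h2, ?_⟩
  rintro ⟨S, hS⟩
  exact not_suitable h1 h2 S hS

end Pool.Agent.Results.MP_41e59e_gt.NoSuitableSet
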